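import Mathlib

set_option autoImplicit false

open Polynomial Finset

namespace Pool.Agent.H853R2.Skolem

/-- The interpolation series `∑ C(m,k) p^k b_k`. -/
def ser (p : ℕ) (b : ℕ → ℤ) (m : ℕ) : ℤ :=
  ∑ k ∈ Finset.range (m + 1), (m.choose k : ℤ) * (p : ℤ) ^ k * b k

theorem ser_eq (p : ℕ) (b : ℕ → ℤ) (m N : ℕ) (h : m ≤ N) :
    ser p b m = ∑ k ∈ Finset.range (N + 1), (m.choose k : ℤ) * (p : ℤ) ^ k * b k := by
  unfold ser
  apply Finset.sum_subset
  · intro k hk; simp at hk ⊢; omega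
  · intro k _ hk
    simp at hk
    rw [Nat.choose_eq_zero_of_lt (by omega)]
    simp

/-- The polynomial `N! * ∑_{k≤N} C(x,k) p^k b_k`. -/
noncomputable def F (p : ℕ) (b : ℕ → ℤ) (N : ℕ) (s : Finset ℕ) : ℤ[X] :=
  ∑ k ∈ s, C (((N.factorial / k.factorial : ℕ) : ℤ) * (p : ℤ) ^ k * b k) * descPochhammer ℤ k

theorem F_eval (p : ℕ) (b : ℕ → ℤ) (N m : ℕ) (h : m ≤ N) :
    (F p b N (Finset.range (N + 1))).eval (m : ℤ) = (N.factorial : ℤ) * ser p b m := by
  rw [ser_eq p b m N h, F, Polynomial.eval_finsetSum, Finset.mul_sum]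
  apply Finset.sum_congr rfl
  intro k hk
  simp only [Finset.mem_range] at hk
  rw [Polynomial.eval_mul, Polynomial.eval_C, descPochhammer_eval_eq_descFactorial,
    Nat.descFactorial_eq_factorial_mul_choose]
  have hk' : k.factorial ∣ N.factorial := Nat.factorial_dvd_factorial (by omega)
  obtain ⟨q, hq⟩ := hk'
  have : N.factorial / k.factorial = q := by
    rw [hq]; exact Nat.mul_div_cancel_left _ (Nat.factorial_pos k)
  rw [this, hq]
  push_cast
  ring

theorem val_factorial {p : ℕ} (hp : p.Prime) (hp3 : 3 ≤ p) (k : ℕ) :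
    2 * padicValNat p k.factorial ≤ k := by
  have := Fact.mk hp
  have h := sub_one_mul_padicValNat_factorial (p := p) k
  have h2 : 2 * padicValNat p k.factorial ≤ (p - 1) * padicValNat p k.factorial := by
    apply Nat.mul_le_mul_right
    omega
  omega

theorem pow_dvd_coef {p : ℕ} (hp : p.Prime) (hp3 : 3 ≤ p) (N k e : ℕ) (hk : k ≤ N)
    (he : 2 * e ≤ k) :
    p ^ (padicValNat p N.factorial + e) ∣ (N.factorial / k.factorial) * p ^ k := by
  have := Fact.mk hp
  have hd : k.factorial ∣ N.factorial := Nat.factorial_dvd_factorial hk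
  have hpos : N.factorial / k.factorial ≠ 0 := by
    have := Nat.div_pos (Nat.le_of_dvd (Nat.factorial_pos N) hd) (Nat.factorial_pos k)
    omega
  rw [padicValNat_dvd_iff_le (by
    apply mul_ne_zero hpos
    exact pow_ne_zero _ hp.ne_zero)]
  rw [padicValNat.mul hpos (pow_ne_zero _ hp.ne_zero), padicValNat.prime_pow,
    padicValNat.div_of_dvd hd]
  have h1 := val_factorial hp hp3 k
  have h2 : padicValNat p k.factorial ≤ padicValNat p N.factorial := by
    rw [← padicValNat_dvd_iff_le (Nat.factorial_ne_zero N)]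
    exact pow_padicValNat_dvd.trans hd
  omega

theorem prod_dvd (P : ℤ[X]) (Z : Finset ℕ) (h : ∀ z ∈ Z, P.eval (z : ℤ) = 0) :
    (∏ z ∈ Z, (X - C (z : ℤ))) ∣ P := by
  classical
  by_cases hP : P = 0
  · rw [hP]; exact dvd_zero _
  have h1 : (∏ z ∈ Z, (X - C (z : ℤ))) =
      ((Z.image (fun z : ℕ => (z : ℤ))).val.map (fun a => X - C a)).prod := by
    rw [← Finset.prod_eq_multiset_prod]
    rw [Finset.prod_image]
    intro a _ b _ hab
    simpa using hab
  rw [h1, Multiset.prod_X_sub_C_dvd_iff_le_roots hP]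
  rw [Multiset.le_iff_subset (Finset.nodup _)]
  intro a ha
  rw [Finset.mem_val, Finset.mem_image] at ha
  obtain ⟨z, hz, rfl⟩ := ha
  rw [mem_roots hP]
  exact h z hz

theorem strass {p : ℕ} (hp : p.Prime) (hp3 : 3 ≤ p) (b : ℕ → ℤ) (Z : Finset ℕ)
    (hZ : ∀ m ∈ Z, ser p b m = 0) (e : ℕ) (he : 2 * e ≤ Z.card) (m : ℕ) :
    (p : ℤ) ^ e ∣ ser p b m := by
  classical
  have := Fact.mk hp
  set N := max m (Z.sup id) with hN
  have hmN : m ≤ N := le_max_left _ _
  have hZN : ∀ z ∈ Z, z ≤ N := fun z hz => (Finset.le_sup (f := id) hz).trans (le_max_right _ _)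
  set J := Z.card with hJ
  set W : ℤ[X] := ∏ z ∈ Z, (X - C (z : ℤ)) with hW
  have hWm : W.Monic := monic_prod_of_monic _ _ (fun z _ => monic_X_sub_C _)
  have hWdeg : W.natDegree = J := by
    rw [hW, natDegree_prod_of_monic _ _ (fun z _ => monic_X_sub_C _)]
    simp only [natDegree_X_sub_C, Finset.sum_const, smul_eq_mul, mul_one, hJ]
  -- W divides the full polynomial
  set Fu := F p b N (Finset.range (N + 1)) with hFu
  have hroot : ∀ z ∈ Z, Fu.eval (z : ℤ) = 0 := by
    intro z hz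
    rw [hFu, F_eval p b N z (hZN z hz), hZ z hz, mul_zero]
  have hdvd : W ∣ Fu := prod_dvd _ _ hroot
  set v := padicValNat p N.factorial with hv
  -- split the polynomial
  set lo := F p b N ((Finset.range (N + 1)).filter (fun k => k < J)) with hlo
  set hi := F p b N ((Finset.range (N + 1)).filter (fun k => ¬ k < J)) with hhi
  have hsplit : Fu = lo + hi := by
    rw [hFu, hlo, hhi, F, F, F, Finset.sum_filter_add_sum_filter_not]
  have hhid : ∃ G : ℤ[X], hi = C ((p : ℤ) ^ (v + e)) * G := by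
    suffices h : C ((p : ℤ) ^ (v + e)) ∣ hi by
      obtain ⟨G, hG⟩ := h; exact ⟨G, hG⟩
    rw [hhi, F]
    apply Finset.dvd_sum
    intro k hk
    rw [Finset.mem_filter, Finset.mem_range, not_lt] at hk
    apply Dvd.dvd.mul_right
    apply (C : ℤ →+* ℤ[X]).map_dvd
    apply Dvd.dvd.mul_right
    have := pow_dvd_coef hp hp3 N k e (by omega) (by omega)
    exact_mod_cast this
  obtain ⟨G, hG⟩ := hhid
  have hlodeg : J = 0 → lo = 0 := by
    intro h0
    rw [hlo, F]
    apply Finset.sum_eq_zero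
    intro k hk
    rw [Finset.mem_filter] at hk
    omega
  have hWJ : W.degree = (J : WithBot ℕ) := by
    rw [degree_eq_natDegree hWm.ne_zero, hWdeg]
  have hlo0 : lo.degree < W.degree := by
    rw [hWJ, hlo, F]
    apply lt_of_le_of_lt (degree_sum_le _ _)
    rw [Finset.sup_lt_iff (by exact WithBot.bot_lt_coe _)]
    intro k hk
    rw [Finset.mem_filter] at hk
    refine lt_of_le_of_lt (degree_mul_le _ _) ?_
    have h1 : (C (((N.factorial / k.factorial : ℕ) : ℤ) * (p : ℤ) ^ k * b k)).degree ≤ 0 :=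
      degree_C_le
    have h2 : (descPochhammer ℤ k).degree = (k : WithBot ℕ) := by
      rw [degree_eq_natDegree (monic_descPochhammer ℤ k).ne_zero, descPochhammer_natDegree]
    rw [h2]
    calc _ ≤ 0 + (k : WithBot ℕ) := by gcongr
      _ = (k : WithBot ℕ) := zero_add _
      _ < (J : WithBot ℕ) := by exact_mod_cast hk.2
  have hW1 : W.degree ≠ ⊥ := by rw [hWJ]; exact WithBot.coe_ne_bot
  have hquot : Fu /ₘ W = C ((p : ℤ) ^ (v + e)) * (G /ₘ W) := by
    refine (div_modByMonic_unique (C ((p : ℤ) ^ (v + e)) * (G /ₘ W))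
      (lo + C ((p : ℤ) ^ (v + e)) * (G %ₘ W)) hWm ⟨?_, ?_⟩).1
    · rw [hsplit, hG]
      conv_rhs => rw [← modByMonic_add_div G W]
      ring
    · refine lt_of_le_of_lt (degree_add_le _ _) (max_lt hlo0 ?_)
      refine lt_of_le_of_lt (degree_mul_le _ _) ?_
      have h1 : (C ((p : ℤ) ^ (v + e))).degree ≤ 0 := degree_C_le
      calc _ ≤ 0 + (G %ₘ W).degree := by gcongr
        _ = (G %ₘ W).degree := zero_add _
        _ < _ := degree_modByMonic_lt _ hWm
  obtain ⟨Q, hQ⟩ := hdvd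
  have hQ2 : Fu /ₘ W = Q := by
    rw [hQ, mul_divByMonic_cancel_left _ hWm]
  have hfin : (N.factorial : ℤ) * ser p b m = W.eval (m : ℤ) * ((p : ℤ) ^ (v + e) * (G /ₘ W).eval (m : ℤ)) := by
    rw [← F_eval p b N m hmN, ← hFu, hQ, ← hQ2, hquot]
    simp
  have hd : (p : ℤ) ^ (v + e) ∣ (N.factorial : ℤ) * ser p b m := by
    rw [hfin]
    exact Dvd.dvd.mul_left (dvd_mul_right _ _) _
  obtain ⟨q, hq⟩ : p ^ v ∣ N.factorial := pow_padicValNat_dvd
  have hqp : ¬ p ∣ q := by
    intro hpq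
    have h1 : p ^ (v + 1) ∣ N.factorial := by
      rw [hq, pow_succ]
      exact Nat.mul_dvd_mul_left _ hpq
    rw [padicValNat_dvd_iff_le (Nat.factorial_ne_zero N)] at h1
    omega
  rw [hq, pow_add] at hd
  push_cast at hd
  rw [mul_assoc] at hd
  have hd2 : (p : ℤ) ^ e ∣ (q : ℤ) * ser p b m :=
    Int.dvd_of_mul_dvd_mul_left (pow_ne_zero _ (by exact_mod_cast hp.ne_zero)) hd
  have hcop : IsCoprime ((p : ℤ) ^ e) (q : ℤ) := by
    apply IsCoprime.pow_left
    rw [Nat.isCoprime_iff_coprime]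
    exact (Nat.Prime.coprime_iff_not_dvd hp).2 hqp
  exact hcop.dvd_of_dvd_mul_left hd2

end Pool.Agent.H853R2.Skolem
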