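import Mathlib
import Pool.Agent.H9.Lib.R_seed8.H853R2.Skolem.Strass

set_option autoImplicit false

open Polynomial Finset

namespace Pool.Agent.H853R2.Skolem

/-- The linear functional `X^n ↦ f n` on integer polynomials. -/
noncomputable def phi (f : ℕ → ℤ) : ℤ[X] →ₗ[ℤ] ℤ :=
  Polynomial.lsum (fun n => LinearMap.toSpanSingleton ℤ ℤ (f n))

theorem phi_monomial (f : ℕ → ℤ) (n : ℕ) (a : ℤ) : phi f (monomial n a) = a * f n := by
  simp [phi, Polynomial.lsum_apply]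

theorem phi_X_pow (f : ℕ → ℤ) (n : ℕ) : phi f (X ^ n) = f n := by
  rw [X_pow_eq_monomial, phi_monomial, one_mul]

theorem phi_C_mul (f : ℕ → ℤ) (a : ℤ) (Q : ℤ[X]) : phi f (C a * Q) = a * phi f Q := by
  rw [← smul_eq_C_mul, map_smul, smul_eq_mul]

/-- `P` annihilates the sequence `f`, i.e. `f` satisfies the linear recurrence with
characteristic polynomial `P`. -/
def Ann (P : ℤ[X]) (f : ℕ → ℤ) : Prop := ∀ Q : ℤ[X], phi f (P * Q) = 0

theorem phi_X_pow_mul (f : ℕ → ℤ) (n : ℕ) (P : ℤ[X]) :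
    phi f (P * X ^ n) = ∑ i ∈ Finset.range (P.natDegree + 1), P.coeff i * f (n + i) := by
  conv_lhs => rw [P.as_sum_range' (P.natDegree + 1) (Nat.lt_succ_self _)]
  rw [Finset.sum_mul, map_sum]
  apply Finset.sum_congr rfl
  intro i _
  rw [X_pow_eq_monomial, monomial_mul_monomial, phi_monomial, mul_one, add_comm n i]

theorem ann_of_pow (P : ℤ[X]) (f : ℕ → ℤ) (h : ∀ n, phi f (P * X ^ n) = 0) : Ann P f := by
  intro Q
  rw [Q.as_sum_range' (Q.natDegree + 1) (Nat.lt_succ_self _), Finset.mul_sum, map_sum]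
  apply Finset.sum_eq_zero
  intro i _
  rw [← C_mul_X_pow_eq_monomial, ← mul_assoc, mul_comm P (C _), mul_assoc, phi_C_mul, h, mul_zero]

theorem ann_iff (P : ℤ[X]) (f : ℕ → ℤ) :
    Ann P f ↔ ∀ n, ∑ i ∈ Finset.range (P.natDegree + 1), P.coeff i * f (n + i) = 0 := by
  constructor
  · intro h n; rw [← phi_X_pow_mul]; exact h _
  · intro h; apply ann_of_pow; intro n; rw [phi_X_pow_mul]; exact h n

/-- lifting a divisibility modulo `p` -/
theorem lift_dvd {p : ℕ} (P A : ℤ[X]) (hP : P.Monic)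
    (h : P.map (Int.castRingHom (ZMod p)) ∣ A.map (Int.castRingHom (ZMod p))) :
    ∃ B D : ℤ[X], A = P * B + C (p : ℤ) * D := by
  have h1 : (A %ₘ P).map (Int.castRingHom (ZMod p)) = 0 := by
    rw [map_modByMonic _ hP]
    exact (modByMonic_eq_zero_iff_dvd (hP.map _)).2 h
  have h2 : C (p : ℤ) ∣ A %ₘ P := by
    rw [C_dvd_iff_dvd_coeff]
    intro i
    have := congrArg (fun q => q.coeff i) h1
    simp only [coeff_map, coeff_zero, eq_intCast] at this
    exact (ZMod.intCast_zmod_eq_zero_iff_dvd _ p).1 this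
  obtain ⟨D, hD⟩ := h2
  refine ⟨A /ₘ P, D, ?_⟩
  rw [← hD, add_comm]
  exact (modByMonic_add_div A P).symm

theorem key (f : ℕ → ℤ) (P : ℤ[X]) (j : ℕ) (hP : P.Monic) (hann : Ann (X ^ j * P) f)
    {p : ℕ} (L : ℕ)
    (hL : P.map (Int.castRingHom (ZMod p)) ∣ X ^ L - 1) (r : ℕ) :
    ∃ b : ℕ → ℤ, ∀ m, f (j + r + L * m) = ser p b m := by
  have hL' : P.map (Int.castRingHom (ZMod p)) ∣ (X ^ L - 1 : ℤ[X]).map (Int.castRingHom (ZMod p)) := by
    simpa using hL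
  obtain ⟨B, D, hBD⟩ := lift_dvd P _ hP hL'
  -- (X^L - 1)^k X^j = p^k D^k X^j + (X^j P) * E
  have hk : ∀ k : ℕ, ∃ E : ℤ[X],
      (X ^ L - 1) ^ k * X ^ j = C ((p : ℤ) ^ k) * (D ^ k * X ^ j) + (X ^ j * P) * E := by
    intro k
    induction k with
    | zero => exact ⟨0, by simp⟩
    | succ k ih =>
      obtain ⟨E, hE⟩ := ih
      refine ⟨(X ^ L - 1) * E + C ((p : ℤ) ^ k) * D ^ k * B, ?_⟩
      rw [pow_succ, mul_assoc, mul_comm (X ^ L - 1) (X ^ j), ← mul_assoc, hE]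
      have : C ((p : ℤ) ^ (k + 1)) = C ((p : ℤ) ^ k) * C (p : ℤ) := by
        rw [← C_mul, pow_succ]
      rw [this]
      have h3 : (C ((p : ℤ) ^ k) * (D ^ k * X ^ j) + X ^ j * P * E) * (X ^ L - 1) =
        C ((p : ℤ) ^ k) * (D ^ k * X ^ j) * (P * B + C (p : ℤ) * D) + X ^ j * P * E * (X ^ L - 1) := by
        rw [add_mul, ← hBD]
      rw [h3]
      ring
  refine ⟨fun k => phi f (X ^ r * (D ^ k * X ^ j)), ?_⟩
  intro m
  rw [← phi_X_pow f (j + r + L * m)]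
  have e1 : (X : ℤ[X]) ^ (j + r + L * m) =
      ∑ k ∈ Finset.range (m + 1), C ((m.choose k : ℕ) : ℤ) * (X ^ r * ((X ^ L - 1) ^ k * X ^ j)) := by
    rw [pow_add, pow_add, pow_mul]
    have : (X : ℤ[X]) ^ L = (X ^ L - 1) + 1 := by ring
    conv_lhs => rw [this, add_pow]
    rw [Finset.mul_sum]
    apply Finset.sum_congr rfl
    intro k _
    simp only [one_pow, mul_one]
    rw [show (C ((m.choose k : ℕ) : ℤ) : ℤ[X]) = (m.choose k : ℤ[X]) by simp]
    ring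
  rw [e1, map_sum, ser]
  apply Finset.sum_congr rfl
  intro k _
  obtain ⟨E, hE⟩ := hk k
  rw [phi_C_mul, hE, mul_add, map_add]
  rw [show (X : ℤ[X]) ^ r * (C ((p : ℤ) ^ k) * (D ^ k * X ^ j)) =
    C ((p : ℤ) ^ k) * (X ^ r * (D ^ k * X ^ j)) by ring, phi_C_mul]
  rw [show (X : ℤ[X]) ^ r * (X ^ j * P * E) = (X ^ j * P) * (X ^ r * E) by ring, hann]
  ring

end Pool.Agent.H853R2.Skolem
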