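import Mathlib
import Pool.Agent.H9.Lib.R_seed8.H853R2.Skolem.Ord

set_option autoImplicit false

open Polynomial Finset

namespace Pool.Agent.H853R2.Skolem

/-- `f` satisfies a recurrence of order `≤ d` whose characteristic polynomial is `X^j * P` with
`0 < |P(0)| ≤ K`, and `|f n| ≤ G^(n+1)`. -/
def Bd (f : ℕ → ℤ) (d K G : ℕ) : Prop :=
  ∃ (j : ℕ) (P : ℤ[X]), P.Monic ∧ j + P.natDegree ≤ d ∧ P.coeff 0 ≠ 0 ∧ |P.coeff 0| ≤ K ∧
    Ann (X ^ j * P) f ∧ ∀ n, |f n| ≤ (G : ℤ) ^ (n + 1)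

/-- `L` is a good period for `f`. -/
def Good (f : ℕ → ℤ) (d G L : ℕ) : Prop :=
  (∀ n, |f n| ≤ (G : ℤ) ^ (n + 1)) ∧
  (∀ s, (∀ m < d, f (s + L * m) = 0) → ∀ m, f (s + L * m) = 0) ∧
  ∃ p : ℕ, p.Prime ∧ 3 ≤ p ∧ ∀ s, d ≤ s → ∃ b : ℕ → ℤ, ∀ m, f (s + L * m) = ser p b m

theorem good_of_bd {f : ℕ → ℤ} {d K G : ℕ} (h : Bd f d K G) {p : ℕ} (hp : p.Prime) (hp3 : 3 ≤ p)
    (hK : K < p) : ∃ L0, 1 ≤ L0 ∧ L0 ≤ p ^ d ∧ ∀ L, L0 ∣ L → Good f d G L := by
  obtain ⟨j, P, hP, hd, h0, hPK, hann, hG⟩ := h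
  have := Fact.mk hp
  obtain ⟨L0, h1, h2, h3⟩ := exists_period (P.map (Int.castRingHom (ZMod p))) (hP.map _) (by
    rw [coeff_map]
    intro h
    rw [eq_intCast, ZMod.intCast_zmod_eq_zero_iff_dvd] at h
    have := Int.le_of_dvd (abs_pos.2 h0) ((dvd_abs _ _).2 h)
    have : (p : ℤ) ≤ K := this.trans hPK
    omega)
  rw [hP.natDegree_map] at h2
  refine ⟨L0, h1, h2.trans (Nat.pow_le_pow_right hp.pos (by omega)), ?_⟩
  intro L hL
  refine ⟨hG, ?_, p, hp, hp3, ?_⟩
  · intro s hs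
    apply dterm f (X ^ j * P) ((monic_X_pow j).mul hP) hann L s d _ hs
    rw [(monic_X_pow j).natDegree_mul hP, natDegree_X_pow]
    exact hd
  · intro s hs
    obtain ⟨b, hb⟩ := key f P j hP hann L (period_dvd _ L0 L h3 hL) (s - j)
    refine ⟨b, fun m => ?_⟩
    rw [← hb m]
    congr 1
    omega

theorem pow_bound {p e G n : ℕ} (hp3 : 3 ≤ p) (h : p ^ e ≤ G ^ n) (hn : 1 ≤ n) : e ≤ G * n := by
  by_contra hlt
  push Not at hlt
  have h1 : G < 3 ^ G := Nat.lt_pow_self (by norm_num)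
  have h2 : G ^ n < (3 ^ G) ^ n := Nat.pow_lt_pow_left h1 (by omega)
  have h3 : (3 ^ G) ^ n = 3 ^ (G * n) := by rw [pow_mul]
  have h4 : 3 ^ (G * n) ≤ 3 ^ e := Nat.pow_le_pow_right (by norm_num) hlt.le
  have h5 : 3 ^ e ≤ p ^ e := Nat.pow_le_pow_left hp3 e
  omega

theorem class_count {f : ℕ → ℤ} {d G L : ℕ} (h : Good f d G L) (s : ℕ) (hs : d ≤ s)
    (hne : ∃ m, f (s + L * m) ≠ 0) (Z : Finset ℕ) (hZ : ∀ m ∈ Z, f (s + L * m) = 0) :
    Z.card ≤ 2 * (G * (s + L * d + 1)) + 1 := by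
  obtain ⟨hG, hd, p, hp, hp3, hser⟩ := h
  have : ∃ m < d, f (s + L * m) ≠ 0 := by
    by_contra hcon
    push Not at hcon
    obtain ⟨m, hm⟩ := hne
    exact hm (hd s hcon m)
  obtain ⟨m0, hm0, hne0⟩ := this
  obtain ⟨b, hb⟩ := hser s hs
  have hdvd : (p : ℤ) ^ (Z.card / 2) ∣ f (s + L * m0) := by
    rw [hb]
    apply strass hp hp3 b Z (fun m hm => by rw [← hb]; exact hZ m hm)
    omega
  have h1 : ((p ^ (Z.card / 2) : ℕ) : ℤ) ≤ ((G ^ (s + L * m0 + 1) : ℕ) : ℤ) := by
    push_cast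
    exact (Int.le_of_dvd (abs_pos.2 hne0) ((dvd_abs _ _).2 hdvd)).trans (hG _)
  have h2 := pow_bound hp3 (by exact_mod_cast h1) (by omega)
  have h3 : L * m0 ≤ L * d := Nat.mul_le_mul_left _ hm0.le
  have h4 : G * (s + L * m0 + 1) ≤ G * (s + L * d + 1) := Nat.mul_le_mul_left _ (by omega)
  omega

/-- Number of exceptional zeros. -/
def NB (d G L : ℕ) : ℕ := (2 * (G * (d + L + L * d + 1)) + 1) * L

theorem exc_count {f : ℕ → ℤ} {d G L : ℕ} (hL : 1 ≤ L) (h : Good f d G L) (A : Finset ℕ)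
    (hA : ∀ n ∈ A, d ≤ n ∧ f n = 0 ∧ ∃ m, f (n + L * m) ≠ 0) :
    A.card ≤ NB d G L := by
  classical
  have h1 := Finset.card_le_mul_card_image_of_maps_to (s := A) (t := Finset.range L)
    (f := fun n => (n - d) % L) (fun n _ => by
      simp only [Finset.mem_range]; exact Nat.mod_lt _ (by omega))
    (2 * (G * (d + L + L * d + 1)) + 1) (by
      intro r hr
      rw [Finset.mem_range] at hr
      set B := A.filter (fun n => (n - d) % L = r) with hB
      -- map B to m = (n - d) / L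
      have hinj : Set.InjOn (fun n => (n - d) / L) (B : Set ℕ) := by
        intro a ha b hb hab
        rw [hB, Finset.coe_filter] at ha hb
        have e1 := Nat.div_add_mod (a - d) L
        have e2 := Nat.div_add_mod (b - d) L
        simp only at hab
        rw [ha.2] at e1
        rw [hb.2, ← hab] at e2
        have := (hA a ha.1).1
        have := (hA b hb.1).1
        omega
      by_cases hBe : B = ∅
      · rw [hBe]; simp
      obtain ⟨n0, hn0⟩ := Finset.nonempty_iff_ne_empty.2 hBe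
      have hform : ∀ n ∈ B, n = (d + r) + L * ((n - d) / L) := by
        intro n hn
        rw [hB, Finset.mem_filter] at hn
        have e1 := Nat.div_add_mod (n - d) L
        rw [hn.2] at e1
        have := (hA n hn.1).1
        omega
      have hcc := class_count h (d + r) (by omega) (by
        rw [hB, Finset.mem_filter] at hn0
        obtain ⟨m, hm⟩ := (hA n0 hn0.1).2.2
        refine ⟨(n0 - d) / L + m, ?_⟩
        rw [mul_add, ← add_assoc, ← hform n0 (by rw [hB, Finset.mem_filter]; exact hn0)]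
        exact hm) (B.image (fun n => (n - d) / L)) (by
        intro m hm
        rw [Finset.mem_image] at hm
        obtain ⟨n, hn, rfl⟩ := hm
        rw [← hform n hn]
        rw [hB, Finset.mem_filter] at hn
        exact (hA n hn.1).2.1)
      rw [Finset.card_image_of_injOn hinj] at hcc
      refine hcc.trans ?_
      have : G * (d + r + L * d + 1) ≤ G * (d + L + L * d + 1) := Nat.mul_le_mul_left _ (by omega)
      omega)
  rwa [Finset.card_range] at h1

theorem zero_class {f : ℕ → ℤ} {d G L : ℕ} (hL : 1 ≤ L) (h : Good f d G L) (s s' : ℕ)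
    (hs : d ≤ s) (hs' : d ≤ s') (hmod : s % L = s' % L) (h0 : ∀ m, f (s' + L * m) = 0) :
    f s = 0 := by
  classical
  by_contra hne
  -- base point of the class
  set t := min s s' with ht
  have htd : d ≤ t := le_min hs hs'
  obtain ⟨a, ha⟩ : ∃ a, s = t + L * a := by
    rcases le_total s s' with hle | hle
    · exact ⟨0, by simp [ht, hle]⟩
    · refine ⟨s / L - s' / L, ?_⟩
      have e1 := Nat.div_add_mod s L
      have e2 := Nat.div_add_mod s' L
      have e3 : t = s' := by rw [ht]; exact min_eq_right hle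
      have e4 : s' / L ≤ s / L := Nat.div_le_div_right hle
      rw [e3, Nat.mul_sub]
      have e5 : L * (s' / L) ≤ L * (s / L) := Nat.mul_le_mul_left _ e4
      omega
  obtain ⟨b, hb⟩ : ∃ b, s' = t + L * b := by
    rcases le_total s s' with hle | hle
    · refine ⟨s' / L - s / L, ?_⟩
      have e1 := Nat.div_add_mod s L
      have e2 := Nat.div_add_mod s' L
      have e3 : t = s := by rw [ht]; exact min_eq_left hle
      have e4 : s / L ≤ s' / L := Nat.div_le_div_right hle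
      rw [e3, Nat.mul_sub]
      have e5 : L * (s / L) ≤ L * (s' / L) := Nat.mul_le_mul_left _ e4
      omega
    · exact ⟨0, by simp [ht, hle]⟩
  have hcc := class_count h t htd ⟨a, by rw [← ha]; exact hne⟩
    ((Finset.range (2 * (G * (t + L * d + 1)) + 2)).image (fun m => b + m)) (by
      intro m hm
      rw [Finset.mem_image] at hm
      obtain ⟨m', _, rfl⟩ := hm
      rw [mul_add, ← add_assoc, ← hb]
      exact h0 m')
  rw [Finset.card_image_of_injective _ (fun x y hxy => by simpa using hxy), Finset.card_range] at hcc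
  omega

end Pool.Agent.H853R2.Skolem
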